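import Pool.Agent.Results.MP_160e58_al.GrassmannRBIndex

/-!
# Rota-Baxter operators on exterior algebras of arbitrary vector spaces: all nilpotency indices

The starting file `GrassmannRBIndex` computes the RB-index of the Grassmann algebra on `n`
generators. Here: for EVERY vector space `V` over a field of characteristic `0` (also `V = 0` and
`V` of infinite dimension) every Rota-Baxter operator of weight `0` on `Λ V` is nilpotent, and the
set of all nilpotency indices which occur is determined: `{1}` for `V = 0`,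
`{1, ..., max(2, dim V)}` for `0 < dim V < ∞`, all positive integers for `dim V = ∞`.
-/

namespace Pool.Agent.Results.MP_160e58_al.NilpotencyIndices

open Module GrassmannRBIndex

/-- `m` is the nilpotency index of some Rota-Baxter operator `R` of weight `0` on the
`F`-algebra `A`: `R ^ m = 0` and no smaller power of `R` vanishes. -/
def IsIndex (F A : Type*) [Field F] [Ring A] [Algebra F A] (m : ℕ) : Prop :=
  ∃ R : Module.End F A, IsRotaBaxter R ∧ R ^ m = 0 ∧ ∀ k < m, R ^ k ≠ 0

section general

variable {F A B : Type*} [Field F] [Ring A] [Algebra F A] [Ring B] [Algebra F B]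

/-- Every element is a scalar plus a nilpotent element. -/
def ScalNil (F A : Type*) [Field F] [Ring A] [Algebra F A] : Prop :=
  ∀ x : A, ∃ (c : F) (y : A), IsNilpotent y ∧ x = c • 1 + y

theorem nil_range [Nontrivial A] (hA : ScalNil F A) {R : Module.End F A} (hR : IsRotaBaxter R)
    (x : A) : IsNilpotent (R x) := by
  obtain ⟨c, y, hy, hxy⟩ := hA (R x)
  by_cases hc : c = 0
  · rw [hxy, hc, zero_smul, zero_add]; exact hy
  exfalso
  set x' := c⁻¹ • x with hx'
  set ν := -(c⁻¹ • y) with hν
  have hν1 : IsNilpotent ν := by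
    obtain ⟨k, hk⟩ := hy
    refine ⟨k, ?_⟩
    rw [hν, neg_pow, smul_pow, hk, smul_zero, mul_zero]
  have hu : R x' = 1 - ν := by
    rw [hx', map_smul, hxy, smul_add, smul_smul, inv_mul_cancel₀ hc, one_smul, hν]; abel
  have hmul : ∀ p q : A, p ∈ LinearMap.range R → q ∈ LinearMap.range R →
      p * q ∈ LinearMap.range R := by
    rintro _ _ ⟨p, rfl⟩ ⟨q, rfl⟩
    exact ⟨_, (hR p q).symm⟩
  have hk : ∀ k : ℕ, 1 - ν ^ k ∈ LinearMap.range R := by
    intro k
    induction k with
    | zero => simp
    | succ k ih =>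
      have : 1 - ν ^ (k + 1) = (1 - ν ^ k) + R x' - (1 - ν ^ k) * R x' := by
        rw [hu, pow_succ]; noncomm_ring
      rw [this]
      exact sub_mem (add_mem ih ⟨x', rfl⟩) (hmul _ _ ih ⟨x', rfl⟩)
  obtain ⟨N, hN⟩ := hν1
  have h1 := hk N
  rw [hN, sub_zero] at h1
  obtain ⟨z, hz⟩ := h1
  have h2 := hR z z
  rw [hz, one_mul, mul_one, one_mul, map_add, hz] at h2
  have h3 : (1 : A) = 0 := by
    have : (1 : A) + 0 = 1 + 1 := by rw [add_zero]; exact h2
    exact (add_left_cancel this).symm
  exact one_ne_zero h3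

theorem nil_op [CharZero F] [Nontrivial A] (hA : ScalNil F A) {R : Module.End F A}
    (hR : IsRotaBaxter R) : IsNilpotent R := by
  obtain ⟨k, hk⟩ := nil_range hA hR 1
  have hz : ∀ i, k ≤ i → (R 1) ^ i = 0 := fun i hi => pow_eq_zero_of_le hi hk
  rcases Nat.eq_zero_or_pos k with h0 | h0
  · rw [h0, pow_zero] at hk
    exact absurd hk one_ne_zero
  refine ⟨2 * k - 1 + 1, LinearMap.ext fun x => ?_⟩
  have h := rb_chain hR x (2 * k - 1) (fun i j hij => by
    rcases le_or_gt k i with h | h
    · rw [hz i h, zero_mul]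
    · rw [hz j (by omega), zero_mul, map_zero, mul_zero]) (2 * k - 1) 0 0 (by omega)
  rw [pow_zero, one_mul, one_mul] at h
  exact h

/-- Rota-Baxter operators extend from a retract. -/
theorem index_retract [Nontrivial A] (i : B →ₐ[F] A) (p : A →ₐ[F] B) (h : ∀ b, p (i b) = b)
    {m : ℕ} (hm : IsIndex F B m) : IsIndex F A m := by
  obtain ⟨R, hR, h1, h2⟩ := hm
  have hB : Nontrivial B := by
    refine ⟨⟨1, 0, fun h0 => ?_⟩⟩
    have := congrArg i h0
    rw [map_one, map_zero] at this
    exact one_ne_zero this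
  let Q : Module.End F A := i.toLinearMap ∘ₗ R ∘ₗ p.toLinearMap
  have hQ : ∀ x, Q x = i (R (p x)) := fun _ => rfl
  have hpow : ∀ k, 1 ≤ k → ∀ x, (Q ^ k) x = i ((R ^ k) (p x)) := by
    intro k hk
    induction k, hk using Nat.le_induction with
    | base => intro x; rw [pow_one, pow_one, hQ]
    | succ k hk ih =>
      intro x
      rw [pow_succ, Module.End.mul_apply, ih, hQ, h, pow_succ, Module.End.mul_apply]
  have hm0 : m ≠ 0 := by
    rintro rfl
    rw [pow_zero] at h1
    have := LinearMap.congr_fun h1 (1 : B)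
    exact one_ne_zero this
  have hz : ∀ k, 1 ≤ k → (Q ^ k = 0 ↔ R ^ k = 0) := by
    intro k hk
    constructor
    · intro h0
      refine LinearMap.ext fun b => ?_
      have h3 := hpow k hk (i b)
      rw [h0, h] at h3
      have h4 := congrArg p h3
      rw [h, LinearMap.zero_apply, map_zero] at h4
      rw [← h4, LinearMap.zero_apply]
    · intro h0
      refine LinearMap.ext fun x => ?_
      rw [hpow k hk, h0, LinearMap.zero_apply, map_zero, LinearMap.zero_apply]
  refine ⟨Q, ?_, (hz m (by omega)).2 h1, ?_⟩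
  · intro x y
    rw [hQ, hQ, hQ, ← map_mul, hR, map_add p, map_mul p, map_mul p, h, h]
  · intro k hk
    rcases Nat.eq_zero_or_pos k with rfl | hk0
    · rw [pow_zero]
      intro h0
      have := LinearMap.congr_fun h0 (1 : A)
      exact one_ne_zero this
    · intro h0
      exact h2 k hk ((hz k hk0).1 h0)

theorem index_pos [Nontrivial A] {m : ℕ} (hm : IsIndex F A m) : 1 ≤ m := by
  obtain ⟨R, -, h1, -⟩ := hm
  rcases Nat.eq_zero_or_pos m with rfl | h
  · rw [pow_zero] at h1
    exact absurd (LinearMap.congr_fun h1 (1 : A)) one_ne_zero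
  · exact h

theorem index_one [Nontrivial A] : IsIndex F A 1 := by
  refine ⟨0, fun x y => by simp, by simp, ?_⟩
  intro k hk
  have : k = 0 := by omega
  subst this
  rw [pow_zero]
  intro h0
  exact one_ne_zero (LinearMap.congr_fun h0 (1 : A))

theorem index_of_rb {m : ℕ} (hm : IsRBIndex F A m) : IsIndex F A m := by
  obtain ⟨h1, h2⟩ := hm
  rcases Nat.eq_zero_or_pos m with rfl | hpos
  · exact ⟨0, fun x y => by simp, h1 0 (fun x y => by simp), fun k hk => absurd hk (by omega)⟩
  · have h3 : m - 1 ∉ {k : ℕ | ∀ R : Module.End F A, IsRotaBaxter R → R ^ k = 0} := by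
      intro h
      have := h2 h
      omega
    rw [Set.mem_ofPred_eq] at h3
    push Not at h3
    obtain ⟨R, hR, hR0⟩ := h3
    refine ⟨R, hR, h1 R hR, ?_⟩
    intro k hk h0
    apply hR0
    obtain ⟨l, hl⟩ := Nat.exists_eq_add_of_le (show k ≤ m - 1 by omega)
    rw [hl, pow_add, h0, zero_mul]

/-- The RB-index is the greatest nilpotency index. -/
theorem rb_iff (hnil : ∀ R : Module.End F A, IsRotaBaxter R → IsNilpotent R) (m : ℕ) :
    IsRBIndex F A m ↔ IsGreatest {k | IsIndex F A k} m := by
  classical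
  have key : ∀ R : Module.End F A, IsRotaBaxter R → ∃ k, IsIndex F A k ∧ R ^ k = 0 ∧
      ∀ j < k, R ^ j ≠ 0 := by
    intro R hR
    have h := hnil R hR
    exact ⟨Nat.find h, ⟨R, hR, Nat.find_spec h, fun j hj => Nat.find_min h hj⟩,
      Nat.find_spec h, fun j hj => Nat.find_min h hj⟩
  constructor
  · intro h
    refine ⟨index_of_rb h, ?_⟩
    rintro k ⟨R, hR, h1, h2⟩
    by_contra hlt
    exact h2 m (not_le.1 hlt) (h.1 R hR)
  · rintro ⟨h1, h2⟩
    constructor
    · intro R hR
      obtain ⟨k, hk, hk0, -⟩ := key R hR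
      exact pow_eq_zero_of_le (h2 hk) hk0
    · intro k hk
      obtain ⟨R, hR, -, h3⟩ := h1
      by_contra hlt
      exact h3 k (not_le.1 hlt) (hk R hR)

end general

/-! ### Exterior algebras -/

section ext

variable {F V W : Type*} [Field F] [AddCommGroup V] [Module F V] [AddCommGroup W] [Module F W]

theorem map_map (f : V →ₗ[F] W) {U : Type*} [AddCommGroup U] [Module F U] (g : W →ₗ[F] U)
    (x : ExteriorAlgebra F V) :
    ExteriorAlgebra.map g (ExteriorAlgebra.map f x) = ExteriorAlgebra.map (g ∘ₗ f) x := by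
  rw [← ExteriorAlgebra.map_comp_map]
  rfl

theorem index_of_linear (i : W →ₗ[F] V) (p : V →ₗ[F] W) (h : p ∘ₗ i = LinearMap.id) {m : ℕ}
    (hm : IsIndex F (ExteriorAlgebra F W) m) : IsIndex F (ExteriorAlgebra F V) m := by
  refine index_retract (ExteriorAlgebra.map i) (ExteriorAlgebra.map p) (fun b => ?_) hm
  rw [map_map, h, ExteriorAlgebra.map_id]
  rfl

theorem scalNil_fin (n : ℕ) : ScalNil F (ExteriorAlgebra F (Fin n → F)) := by
  intro x
  obtain ⟨c, y, hy, rfl⟩ := scal_split x
  exact ⟨c, y, ⟨n + 1, fil_big (i := 1 * (n + 1)) (by omega) (fil_pow hy (n + 1))⟩, rfl⟩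

theorem exists_fin (x : ExteriorAlgebra F V) :
    ∃ U : Submodule F V, FiniteDimensional F U ∧
      ∃ y : ExteriorAlgebra F U, ExteriorAlgebra.map U.subtype y = x := by
  have mono : ∀ (U U' : Submodule F V) (h : U ≤ U') (y : ExteriorAlgebra F U),
      ExteriorAlgebra.map U'.subtype (ExteriorAlgebra.map (Submodule.inclusion h) y) =
        ExteriorAlgebra.map U.subtype y := by
    intro U U' h y
    rw [map_map]
    rfl
  induction x using ExteriorAlgebra.induction with
  | algebraMap r =>
    exact ⟨⊥, inferInstance, algebraMap F _ r, by rw [AlgHom.commutes]⟩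
  | ι v =>
    refine ⟨Submodule.span F {v}, inferInstance,
      ExteriorAlgebra.ι F ⟨v, Submodule.mem_span_singleton_self v⟩, ?_⟩
    rw [ExteriorAlgebra.map_apply_ι]
    rfl
  | mul a b ha hb =>
    obtain ⟨U, hU, y, rfl⟩ := ha
    obtain ⟨U', hU', y', rfl⟩ := hb
    refine ⟨U ⊔ U', inferInstance, ExteriorAlgebra.map (Submodule.inclusion le_sup_left) y *
      ExteriorAlgebra.map (Submodule.inclusion le_sup_right) y', ?_⟩
    rw [map_mul, mono, mono]
  | add a b ha hb =>
    obtain ⟨U, hU, y, rfl⟩ := ha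
    obtain ⟨U', hU', y', rfl⟩ := hb
    refine ⟨U ⊔ U', inferInstance, ExteriorAlgebra.map (Submodule.inclusion le_sup_left) y +
      ExteriorAlgebra.map (Submodule.inclusion le_sup_right) y', ?_⟩
    rw [map_add, mono, mono]

theorem scalNil : ScalNil F (ExteriorAlgebra F V) := by
  intro x
  obtain ⟨U, hU, y, rfl⟩ := exists_fin x
  let b := Module.finBasis F U
  let e : U ≃ₗ[F] (Fin (Module.finrank F U) → F) := b.equivFun
  obtain ⟨c, z, ⟨k, hk⟩, hz⟩ := scalNil_fin (F := F) _ (ExteriorAlgebra.map e.toLinearMap y)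
  have h1 : y = ExteriorAlgebra.map e.symm.toLinearMap (ExteriorAlgebra.map e.toLinearMap y) := by
    rw [map_map, LinearEquiv.symm_comp, ExteriorAlgebra.map_id]
    rfl
  refine ⟨c, ExteriorAlgebra.map U.subtype (ExteriorAlgebra.map e.symm.toLinearMap z), ⟨k, ?_⟩, ?_⟩
  · rw [← map_pow, ← map_pow, hk, map_zero, map_zero]
  · rw [h1, hz, map_add, map_add, map_smul, map_smul, map_one, map_one]

theorem eq_zero_of_pow_eq_zero' {c : F} {k : ℕ} (h : c ^ k = 0) : c = 0 := by
  by_contra h0
  exact pow_ne_zero k h0 h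

theorem zero_index [Subsingleton V] {R : Module.End F (ExteriorAlgebra F V)}
    (hR : IsRotaBaxter R) : R = 0 := by
  have hs : ∀ x : ExteriorAlgebra F V, ∃ c : F, x = algebraMap F _ c := by
    intro x
    induction x using ExteriorAlgebra.induction with
    | algebraMap r => exact ⟨r, rfl⟩
    | ι v => exact ⟨0, by rw [Subsingleton.elim v 0, map_zero, map_zero]⟩
    | mul a b ha hb =>
      obtain ⟨c, rfl⟩ := ha
      obtain ⟨d, rfl⟩ := hb
      exact ⟨c * d, by rw [map_mul]⟩
    | add a b ha hb =>
      obtain ⟨c, rfl⟩ := ha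
      obtain ⟨d, rfl⟩ := hb
      exact ⟨c + d, by rw [map_add]⟩
  have hnil := nil_range scalNil hR
  refine LinearMap.ext fun x => ?_
  obtain ⟨c, hc⟩ := hs (R x)
  obtain ⟨k, hk⟩ := hnil x
  rw [hc, ← map_pow] at hk
  have h0 : c ^ k = 0 := by
    have := (algebraMap F (ExteriorAlgebra F V)).injective (hk.trans (map_zero _).symm)
    exact this
  rw [hc, eq_zero_of_pow_eq_zero' h0, map_zero, LinearMap.zero_apply]

/-- A retract of dimension `m`. -/
theorem exists_retract {m : ℕ} (h : (m : Cardinal) ≤ Module.rank F V) :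
    ∃ (i : (Fin m → F) →ₗ[F] V) (p : V →ₗ[F] (Fin m → F)), p ∘ₗ i = LinearMap.id := by
  obtain ⟨s, hs, hli⟩ := le_rank_iff_exists_linearIndependent_finset.1 h
  let e : Fin m ≃ s := (Fintype.equivFinOfCardEq (by rw [Fintype.card_coe, hs])).symm
  have hli' : LinearIndependent F (fun j : Fin m => ((e j : s) : V)) := hli.comp e e.injective
  let i : (Fin m → F) →ₗ[F] V := Fintype.linearCombination F (fun j : Fin m => ((e j : s) : V))
  have hi : LinearMap.ker i = ⊥ := by
    exact LinearMap.ker_eq_bot.2 ((linearIndependent_iff_injective_fintypeLinearCombination (R := F)).1 hli')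
  obtain ⟨p, hp⟩ := i.exists_leftInverse_of_injective hi
  exact ⟨i, p, hp⟩

theorem index_of_rank {m k : ℕ} (h : (m : Cardinal) ≤ Module.rank F V)
    (hk : IsIndex F (ExteriorAlgebra F (Fin m → F)) k) : IsIndex F (ExteriorAlgebra F V) k := by
  obtain ⟨i, p, hp⟩ := exists_retract h
  exact index_of_linear i p hp hk

theorem index_two [CharZero F] (h : (1 : Cardinal) ≤ Module.rank F V) :
    IsIndex F (ExteriorAlgebra F V) 2 := by
  have h3 := index_of_rb (GrassmannRBIndex.result F 1 le_rfl)
  rw [max_eq_left (by norm_num)] at h3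
  exact index_of_rank (by rwa [Nat.cast_one]) h3

theorem index_ge [CharZero F] {m : ℕ} (hm : 2 ≤ m) (h : (m : Cardinal) ≤ Module.rank F V) :
    IsIndex F (ExteriorAlgebra F V) m := by
  have h3 := index_of_rb (GrassmannRBIndex.result F m (by omega))
  rw [max_eq_right hm] at h3
  exact index_of_rank h h3

end ext

/-- The nilpotency indices of Rota-Baxter operators on exterior algebras. -/
theorem indices (F : Type*) [Field F] [CharZero F] (V : Type*) [AddCommGroup V] [Module F V]
    (m : ℕ) :
    IsIndex F (ExteriorAlgebra F V) m ↔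
      1 ≤ m ∧ (m ≤ 1 ∨ (m ≤ 2 ∧ Nontrivial V) ∨ (m : Cardinal) ≤ Module.rank F V) := by
  constructor
  · intro h
    refine ⟨index_pos h, ?_⟩
    by_contra hcon
    push Not at hcon
    obtain ⟨h1, h2, h3⟩ := hcon
    have hfin : Module.Finite F V := by
      rw [← Module.rank_lt_aleph0_iff]
      exact h3.trans Cardinal.natCast_lt_aleph0
    have hlt : Module.finrank F V < m := by
      rw [← Module.finrank_eq_rank] at h3
      exact_mod_cast h3
    rcases subsingleton_or_nontrivial V with hV | hV
    · obtain ⟨R, hR, -, hR2⟩ := h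
      rw [zero_index hR] at hR2
      exact hR2 1 h1 (pow_one _)
    · have h2m : 2 < m := by
        by_contra hc
        exact not_subsingleton V (h2 (not_lt.1 hc))
      have hpos : 0 < Module.finrank F V := Module.finrank_pos
      let e : V ≃ₗ[F] (Fin (Module.finrank F V) → F) := (Module.finBasis F V).equivFun
      have h5 : IsIndex F (ExteriorAlgebra F (Fin (Module.finrank F V) → F)) m :=
        index_of_linear e.toLinearMap e.symm.toLinearMap (by ext x; simp) h
      obtain ⟨R, hR, -, hR2⟩ := h5
      have h6 := (GrassmannRBIndex.result F (Module.finrank F V) hpos).1 R hR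
      exact hR2 _ (max_lt h2m hlt) h6
  · rintro ⟨h1, h2⟩
    rcases Nat.lt_or_ge m 2 with h | h
    · have : m = 1 := by omega
      subst this
      exact index_one
    · rcases h2 with h2 | ⟨h2, hV⟩ | h2
      · omega
      · have : m = 2 := by omega
        subst this
        apply index_two
        exact Cardinal.one_le_iff_pos.2 (rank_pos_iff_nontrivial.2 hV)
      · exact index_ge h h2

/-- **Rota-Baxter operators of weight `0` on exterior algebras.** Let `F` be a field of
characteristic `0`.

(1) For every vector space `V` over `F`, of any dimension, every Rota-Baxter operator of weight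
`0` on `Λ V` is nilpotent.
(2) If `V = 0` the only nilpotency index is `1`.
(3) If `V` has finite dimension `n ≥ 1`, the nilpotency indices are `1, ..., max (2, n)`.
(4) If `V` has infinite dimension, every positive integer is a nilpotency index, and `Λ V` has no
RB-index.
(5) The RB-index of the Grassmann algebra on `n ≥ 1` generators is `max (2, n)` (answer to Q1). -/
theorem result (F : Type*) [Field F] [CharZero F] :
    (∀ (V : Type*) [AddCommGroup V] [Module F V],
      (∀ R : Module.End F (ExteriorAlgebra F V), IsRotaBaxter R → IsNilpotent R) ∧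
      (Subsingleton V → ∀ m, IsIndex F (ExteriorAlgebra F V) m ↔ m = 1) ∧
      (∀ n : ℕ, 1 ≤ n → Module.finrank F V = n →
        ∀ m, IsIndex F (ExteriorAlgebra F V) m ↔ 1 ≤ m ∧ m ≤ max 2 n) ∧
      (¬ Module.Finite F V →
        (∀ m, IsIndex F (ExteriorAlgebra F V) m ↔ 1 ≤ m) ∧
        ∀ m, ¬ IsRBIndex F (ExteriorAlgebra F V) m)) ∧
    (∀ n : ℕ, 1 ≤ n → IsRBIndex F (ExteriorAlgebra F (Fin n → F)) (max 2 n)) := by
  refine ⟨fun V _ _ => ⟨fun R hR => nil_op scalNil hR, ?_, ?_, ?_⟩, GrassmannRBIndex.result F⟩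
  · intro hV m
    rw [indices]
    constructor
    · rintro ⟨h1, h2 | ⟨-, h2⟩ | h2⟩
      · omega
      · exact absurd hV (not_subsingleton_iff_nontrivial.2 h2)
      · rw [rank_subsingleton'] at h2
        have : (m : Cardinal) = 0 := le_antisymm h2 bot_le
        have : m = 0 := by exact_mod_cast this
        omega
    · rintro rfl
      exact ⟨le_rfl, Or.inl le_rfl⟩
  · intro n hn hr m
    have hfin : Module.Finite F V := Module.finite_of_finrank_pos (by omega)
    have hnt : Nontrivial V := Module.nontrivial_of_finrank_pos (R := F) (by omega)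
    rw [indices, ← Module.finrank_eq_rank, hr, Nat.cast_le]
    constructor
    · rintro ⟨h1, h2 | ⟨h2, -⟩ | h2⟩
      · exact ⟨h1, by omega⟩
      · exact ⟨h1, by omega⟩
      · exact ⟨h1, by omega⟩
    · rintro ⟨h1, h2⟩
      refine ⟨h1, ?_⟩
      rcases le_max_iff.1 h2 with h | h
      · exact Or.inr (Or.inl ⟨h, hnt⟩)
      · exact Or.inr (Or.inr h)
  · intro hV
    have hr : Cardinal.aleph0 ≤ Module.rank F V := by
      by_contra hc
      exact hV (Module.rank_lt_aleph0_iff.1 (not_le.1 hc))
    have hall : ∀ m, IsIndex F (ExteriorAlgebra F V) m ↔ 1 ≤ m := by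
      intro m
      rw [indices]
      constructor
      · exact fun h => h.1
      · exact fun h => ⟨h, Or.inr (Or.inr ((Cardinal.natCast_lt_aleph0).le.trans hr))⟩
    refine ⟨hall, ?_⟩
    intro m hm
    obtain ⟨R, hR, -, h2⟩ := (hall (m + 1)).2 (by omega)
    exact h2 m (by omega) (hm.1 R hR)

end Pool.Agent.Results.MP_160e58_al.NilpotencyIndices
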